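import Mathlib
import Pool.Agent.H770R2.Kad.HProps

/-! Task UNI: the controlling representation. -/

open scoped ComplexOrder InnerProductSpace

noncomputable section

namespace H770R2.Kad

open H759R2.Kad

universe u v

namespace Uni

variable {A : Type} [CStarAlgebra A]
    {H : Type} [NormedAddCommGroup H] [InnerProductSpace ℂ H] [CompleteSpace H]

/-- the vector functional of a map into operators -/
def ev (w : A →ₗ[ℂ] (H →L[ℂ] H)) (ξ : H) : A →ₗ[ℂ] H where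
  toFun a := w a ξ
  map_add' a b := by rw [map_add]; rfl
  map_smul' c a := by rw [map_smul]; rfl

theorem norm_gns {K : Type} [NormedAddCommGroup K] [InnerProductSpace ℂ K] [CompleteSpace K]
    (σ : A →⋆ₐ[ℂ] (K →L[ℂ] K)) (Ω : K) (φ : A →ₗ[ℂ] ℂ) (h : ∀ a, ⟪Ω, σ a Ω⟫_ℂ = φ a) (a : A) :
    (φ (star a * a)).re = ‖σ a Ω‖ ^ 2 := by
  rw [← h (star a * a), map_mul, map_star, ContinuousLinearMap.star_eq_adjoint]
  have h1 : ⟪Ω, (ContinuousLinearMap.adjoint (σ a) * σ a) Ω⟫_ℂ = ⟪σ a Ω, σ a Ω⟫_ℂ := by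
    show ⟪Ω, ContinuousLinearMap.adjoint (σ a) (σ a Ω)⟫_ℂ = _
    rw [ContinuousLinearMap.adjoint_inner_right]
  rw [h1]
  exact (norm_sq_eq_re_inner (𝕜 := ℂ) (σ a Ω)).symm

end Uni

open Uni

theorem prove_uni (h1 : H_piet.{0, 0}) (h2 : H_dsum.{0, 0}) (h3 : G_gns.{0}) : H_uni := by
  intro A _ _ H _ _ _ w c hc hw
  letI := CStarAlgebra.spectralOrder A
  letI := CStarAlgebra.spectralOrderedRing A
  have hT : ∀ ξ : H, ∀ b, ‖ev w ξ b‖ ≤ (c * ‖ξ‖) * ‖b‖ := by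
    intro ξ b
    calc ‖ev w ξ b‖ = ‖w b ξ‖ := rfl
      _ ≤ ‖w b‖ * ‖ξ‖ := (w b).le_opNorm ξ
      _ ≤ (c * ‖b‖) * ‖ξ‖ := by gcongr; exact hw b
      _ = _ := by ring
  have hp := fun ξ : H => h1 A H (ev w ξ) (c * ‖ξ‖) (by positivity) (hT ξ)
  choose φ ψ hφ1 hψ1 hφ hψ hb using hp
  have g := fun i : H × Bool => h3 A (if i.2 then φ i.1 else ψ i.1)
    (by
      split_ifs
      · exact hφ1 i.1
      · exact hψ1 i.1)
    (by
      split_ifs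
      · exact hφ i.1
      · exact hψ i.1)
  choose K nK iK cK σ Ω hΩ hφΩ hd using g
  obtain ⟨L, nL, iL, cL, π, V, hV⟩ := h2 A (H × Bool) K σ
  refine ⟨L, nL, iL, cL, π, fun ξ => ?_⟩
  set r : ℝ := Real.sqrt 3 * (c * ‖ξ‖) with hr
  have hr0 : 0 ≤ r := by positivity
  refine ⟨(r : ℂ) • V (ξ, true) (Ω (ξ, true)), (r : ℂ) • V (ξ, false) (Ω (ξ, false)), fun a => ?_⟩
  have e1 : ∀ (i : H × Bool) (b : A), ‖π b ((r : ℂ) • V i (Ω i))‖ = r * ‖σ i b (Ω i)‖ := by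
    intro i b
    rw [map_smul, norm_smul, hV, LinearIsometry.norm_map, Complex.norm_real, Real.norm_eq_abs,
      abs_of_nonneg hr0]
  rw [e1, e1]
  have e2 : (φ ξ (star a * a)).re = ‖σ (ξ, true) a (Ω (ξ, true))‖ ^ 2 :=
    norm_gns (σ (ξ, true)) (Ω (ξ, true)) (φ ξ) (hφΩ (ξ, true)) a
  have e3 : (ψ ξ (a * star a)).re = ‖σ (ξ, false) (star a) (Ω (ξ, false))‖ ^ 2 := by
    have := norm_gns (σ (ξ, false)) (Ω (ξ, false)) (ψ ξ) (hφΩ (ξ, false)) (star a)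
    rwa [star_star] at this
  have e4 := hb ξ a
  rw [e2, e3] at e4
  have e5 : 3 * (c * ‖ξ‖) ^ 2 = r ^ 2 := by
    have h3 : Real.sqrt 3 ^ 2 = 3 := Real.sq_sqrt (by norm_num)
    rw [hr, mul_pow (Real.sqrt 3), h3]
  rw [e5] at e4
  have e6 : ‖w a ξ‖ ^ 2 ≤ (r * ‖σ (ξ, true) a (Ω (ξ, true))‖ +
      r * ‖σ (ξ, false) (star a) (Ω (ξ, false))‖) ^ 2 := by
    refine e4.trans ?_
    have h5 : 0 ≤ r ^ 2 * (‖σ (ξ, true) a (Ω (ξ, true))‖ *
      ‖σ (ξ, false) (star a) (Ω (ξ, false))‖) := by positivity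
    nlinarith
  exact (pow_le_pow_iff_left₀ (norm_nonneg _) (by positivity) two_ne_zero).1 e6

end H770R2.Kad
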